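import Pool.Agent.Helper69.VX.St

/-!
# Project VX (MP_e12aa9_pr), module STQ of helper69: the sum of the energies
-/

set_option autoImplicit false

namespace Pool.Agent.Helper75.VX

open Finset Filter Pool.Agent.Helper82.CN Pool.Agent.Helper11.PV Pool.Agent.Helper69.VX

theorem swap_image {V : Type} [DecidableEq V] (a b : V) (S : Set V) (h : a ∈ S ↔ b ∈ S) :
    (Equiv.swap a b) '' S = S := by
  ext v
  constructor
  · rintro ⟨w, hw, rfl⟩
    by_cases h1 : w = a
    · subst h1; rw [Equiv.swap_apply_left]; exact h.mp hw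
    · by_cases h2 : w = b
      · subst h2; rw [Equiv.swap_apply_right]; exact h.mpr hw
      · rw [Equiv.swap_apply_of_ne_of_ne h1 h2]; exact hw
  · intro hv
    refine ⟨Equiv.swap a b v, ?_, Equiv.swap_apply_self _ _ _⟩
    by_cases h1 : v = a
    · subst h1; rw [Equiv.swap_apply_left]; exact h.mp hv
    · by_cases h2 : v = b
      · subst h2; rw [Equiv.swap_apply_right]; exact h.mpr hv
      · rw [Equiv.swap_apply_of_ne_of_ne h1 h2]; exact hv

theorem card_lo (n m : ℕ) : (lo n m).card ≤ m := by
  calc (lo n m).card ≤ (range m).card := by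
        refine Finset.card_le_card_of_injOn Fin.val (fun v hv => ?_) (Fin.val_injective.injOn)
        have h := (Finset.mem_filter.mp hv).2
        exact Finset.mem_coe.mpr (Finset.mem_range.mpr h)
    _ = m := Finset.card_range m

theorem NN_insert_DD {ι : Type} [Fintype ι] [DecidableEq ι] (p : ℝ) (F : (ι → Bool) → ℝ)
    (K : Set ι) (i : ι) : NN p (insert i K) (DD F i) = NN p K (DD F i) := by
  unfold NN
  have h : AV p (insert i K) (DD F i) = AV p K (DD F i) := by
    refine AV_congr p (dep_DD F i (dep_univ F)) ?_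
    ext j
    simp only [Set.mem_inter_iff, Set.mem_insert_iff, Set.mem_sdiff, Set.mem_univ, true_and,
      Set.mem_singleton_iff]
    tauto
  rw [h]

theorem hSTQ (hBIT : StBIT) (hVOS : StVOS) : StSTQ := by
  intro p N l hp0 hp1
  set u : Fin (N + 1) := Fin.last N with hu
  set F : (Sym2 (Fin (N + 1)) → Bool) → ℝ := PH l with hF
  -- the sequence of second moments
  set a : ℕ → ℝ := fun m => NN p (LA u (lo (N + 1) m : Set (Fin (N + 1)))) F with ha
  have hmem : ∀ (m : ℕ) (v : Fin (N + 1)), v ∈ lo (N + 1) m ↔ v.val < m := by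
    intro m v
    simp only [lo, Finset.mem_filter, Finset.mem_univ, true_and]
  have hstep : ∀ m < N, (∑ w ∈ lo (N + 1) (m + 1),
      NN p (LA u (lo (N + 1) (m + 1) : Set (Fin (N + 1)))) (DD F s(u, w))) * (p * (1 - p)) =
      (lo (N + 1) (m + 1)).card * (a (m + 1) - a m) ∧ 0 ≤ a (m + 1) - a m := by
    intro m hm
    set x : Fin (N + 1) := ⟨m, by omega⟩ with hx
    have hxu : u ≠ x := by
      intro h
      have := congrArg Fin.val h
      simp only [hu, hx, Fin.val_last] at this
      omega
    have hins : LA u (lo (N + 1) (m + 1) : Set (Fin (N + 1))) =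
        insert s(u, x) (LA u (lo (N + 1) m : Set (Fin (N + 1)))) := by
      ext e
      simp only [LA, Pool.Agent.Helper69.VX.ST, Set.mem_union, Set.mem_insert_iff]
      constructor
      · rintro (h | ⟨w, hw, rfl⟩)
        · exact Or.inr (Or.inl h)
        · rw [Finset.mem_coe, hmem] at hw
          by_cases hwm : w.val = m
          · left
            have : w = x := Fin.ext hwm
            rw [this]
          · exact Or.inr (Or.inr ⟨w, (hmem m w).mpr (by omega), rfl⟩)
      · rintro (rfl | h | ⟨w, hw, rfl⟩)
        · exact Or.inr ⟨x, (hmem _ _).mpr (by show m < m + 1; omega), rfl⟩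
        · exact Or.inl h
        · rw [Finset.mem_coe, hmem] at hw
          exact Or.inr ⟨w, (hmem _ _).mpr (by omega), rfl⟩
    have hnot : s(u, x) ∉ LA u (lo (N + 1) m : Set (Fin (N + 1))) := by
      rintro (h | ⟨w, hw, h⟩)
      · rw [mem_EK] at h
        exact h.2.1 rfl
      · have hxw : x = w := Sym2.congr_right.mp h
        rw [Finset.mem_coe, hmem, ← hxw] at hw
        exact lt_irrefl _ hw
    have hbit := hBIT p (Sym2 (Fin (N + 1))) F (LA u (lo (N + 1) m : Set (Fin (N + 1)))) s(u, x)
      hp0.le hp1.le hnot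
    rw [← hins] at hbit
    have hterm : ∀ w ∈ lo (N + 1) (m + 1),
        NN p (LA u (lo (N + 1) (m + 1) : Set (Fin (N + 1)))) (DD F s(u, w)) =
        NN p (LA u (lo (N + 1) m : Set (Fin (N + 1)))) (DD F s(u, x)) := by
      intro w hw
      have hw' := (hmem _ _).mp hw
      have hwu : u ≠ w := by
        intro h
        have := congrArg Fin.val h
        simp only [hu, Fin.val_last] at this
        omega
      have hpu : (Equiv.swap w x) u = u := Equiv.swap_apply_of_ne_of_ne hwu hxu
      have himg : s2 (Equiv.swap w x) '' LA u (lo (N + 1) (m + 1) : Set (Fin (N + 1))) =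
          LA u (lo (N + 1) (m + 1) : Set (Fin (N + 1))) := by
        unfold LA
        rw [Set.image_union, s2_EK, s2_ST, hpu, swap_image, swap_image]
        · constructor
          · intro _
            exact Finset.mem_coe.mpr ((hmem _ _).mpr (by show m < m + 1; omega))
          · intro _
            exact Finset.mem_coe.mpr hw
        · constructor
          · intro _
            exact hxu.symm
          · intro _
            exact hwu.symm
      have hDD : (fun ζ : Sym2 (Fin (N + 1)) → Bool =>
          DD F s(u, w) (fun i => ζ (s2 (Equiv.swap w x) i))) = DD F s(u, x) := by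
        funext ζ
        rw [hF, DD_PH_perm l (Equiv.swap w x) s(u, w) ζ, s2_mk, hpu, Equiv.swap_apply_left]
      rw [NN_perm p (s2 (Equiv.swap w x)) _ (DD F s(u, w)), himg, hDD, hins, NN_insert_DD]
    constructor
    · rw [Finset.sum_congr rfl hterm, Finset.sum_const, nsmul_eq_mul]
      show _ = ((lo (N + 1) (m + 1)).card : ℝ) *
        (NN p (LA u (lo (N + 1) (m + 1) : Set (Fin (N + 1)))) F -
          NN p (LA u (lo (N + 1) m : Set (Fin (N + 1)))) F)
      rw [hbit]
      ring
    · show 0 ≤ NN p (LA u (lo (N + 1) (m + 1) : Set (Fin (N + 1)))) F -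
          NN p (LA u (lo (N + 1) m : Set (Fin (N + 1)))) F
      rw [hbit]
      have h1 : 0 ≤ 1 - p := by linarith
      exact mul_nonneg (mul_nonneg hp0.le h1) (NN_nonneg hp0.le hp1.le _ _)
  have hlo0 : lo (N + 1) 0 = ∅ := by
    ext v
    rw [hmem]
    simp
  have h0 : a 0 = NN p (EK {v | v ≠ u}) F := by
    show NN p (LA u (lo (N + 1) 0 : Set (Fin (N + 1)))) F = _
    have : LA u (lo (N + 1) 0 : Set (Fin (N + 1))) = EK {v | v ≠ u} := by
      rw [hlo0]
      ext e
      simp [LA, Pool.Agent.Helper69.VX.ST]
    rw [this]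
  rw [Finset.sum_range_succ', hlo0, Finset.sum_empty, add_zero, Finset.mul_sum]
  calc ∑ m ∈ range N, p * (1 - p) * ∑ w ∈ lo (N + 1) (m + 1),
        NN p (LA u (lo (N + 1) (m + 1) : Set (Fin (N + 1)))) (DD F s(u, w))
      ≤ ∑ m ∈ range N, (N : ℝ) * (a (m + 1) - a m) := by
        refine Finset.sum_le_sum fun m hm => ?_
        obtain ⟨h1, h2⟩ := hstep m (Finset.mem_range.mp hm)
        rw [mul_comm, h1]
        refine mul_le_mul_of_nonneg_right ?_ h2
        have h3 := card_lo (N + 1) (m + 1)
        have h4 := Finset.mem_range.mp hm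
        exact_mod_cast (h3.trans (by omega : m + 1 ≤ N))
    _ = N * (a N - a 0) := by
        rw [← Finset.mul_sum, Finset.sum_range_sub]
    _ ≤ N * 1 := by
        refine mul_le_mul_of_nonneg_left ?_ (Nat.cast_nonneg N)
        have h1 : a N ≤ EE p (fun ω => F ω ^ 2) := NN_le hp0.le hp1.le _ _
        have h2 := hVOS p (N + 1) l u hp0.le hp1.le
        rw [h0]
        linarith
    _ = N := mul_one _

end Pool.Agent.Helper75.VX
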